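import Pool.Agent.H588R3.Defs

set_option autoImplicit false

open MeasureTheory
open scoped NNReal ENNReal

namespace Pool.Agent.Y400.BN

open Pool.Agent.H588R3.FPP

variable {d : ℕ}

/-- `ℓ¹` distance. -/
def l1 (x y : Fin d → ℤ) : ℕ := ∑ i, (x i - y i).natAbs

lemma l1_self (x : Fin d → ℤ) : l1 x x = 0 := by simp [l1]

lemma l1_comm (x y : Fin d → ℤ) : l1 x y = l1 y x := by
  unfold l1
  apply Finset.sum_congr rfl
  intro i _
  omega

lemma l1_tri (x y z : Fin d → ℤ) : l1 x z ≤ l1 x y + l1 y z := by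
  unfold l1
  rw [← Finset.sum_add_distrib]
  apply Finset.sum_le_sum
  intro i _
  omega

lemma l1_split (x y : Fin d → ℤ) (k : Fin d) :
    l1 x y = (x k - y k).natAbs + ∑ i ∈ Finset.univ.erase k, (x i - y i).natAbs := by
  rw [l1, ← Finset.add_sum_erase _ _ (Finset.mem_univ k)]

lemma l1_change {x x' y : Fin d → ℤ} {k : Fin d} (h : ∀ i ≠ k, x' i = x i) :
    l1 x y + (x' k - y k).natAbs = l1 x' y + (x k - y k).natAbs := by
  rw [l1_split x y k, l1_split x' y k]
  have : ∑ i ∈ Finset.univ.erase k, (x i - y i).natAbs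
      = ∑ i ∈ Finset.univ.erase k, (x' i - y i).natAbs := by
    apply Finset.sum_congr rfl
    intro i hi
    rw [h i (Finset.ne_of_mem_erase hi)]
  omega

lemma le_l1 (x y : Fin d → ℤ) (k : Fin d) : (x k - y k).natAbs ≤ l1 x y := by
  rw [l1_split x y k]; omega

/-- Coordinates of neighbours. -/
lemma joins_coord {e : Edge d} {x y : Fin d → ℤ} (h : Joins e x y) :
    (∀ i ≠ e.2, y i = x i) ∧ (y e.2 = x e.2 + 1 ∨ y e.2 = x e.2 - 1) := by
  rcases h with ⟨h1, h2⟩ | ⟨h1, h2⟩
  · subst h1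
    subst h2
    refine ⟨fun i hi => ?_, Or.inl ?_⟩
    · simp [tip, Pi.single_eq_of_ne hi]
    · simp [tip]
  · subst h1
    subst h2
    refine ⟨fun i hi => ?_, Or.inr ?_⟩
    · simp [tip, Pi.single_eq_of_ne hi]
    · simp [tip]

lemma l1_joins {e : Edge d} {x y : Fin d → ℤ} (h : Joins e x y) (z : Fin d → ℤ) :
    l1 x z ≤ 1 + l1 y z := by
  obtain ⟨h1, h2⟩ := joins_coord h
  have := l1_change (y := z) h1
  omega

lemma step_toward {x y : Fin d → ℤ} {k : Fin d} (hk : x k ≠ y k) :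
    ∃ x' : Fin d → ℤ, ∃ e, Joins e x x' ∧ (∀ i ≠ k, x' i = x i) ∧
      (x' k = x k + 1 ∧ x k < y k ∨ x' k = x k - 1 ∧ y k < x k) ∧ l1 x' y + 1 = l1 x y := by
  rcases lt_or_gt_of_ne hk with h | h
  · have hx' : ∀ i ≠ k, (x + Pi.single k 1 : Fin d → ℤ) i = x i := by
      intro i hi
      simp [Pi.single_eq_of_ne hi]
    refine ⟨x + Pi.single k 1, (x, k), Or.inl ⟨rfl, rfl⟩, hx', Or.inl ⟨by simp, h⟩, ?_⟩
    have h2 := l1_change (y := y) hx'
    have h3 : (x + Pi.single k 1 : Fin d → ℤ) k = x k + 1 := by simp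
    rw [h3] at h2
    omega
  · have hx' : ∀ i ≠ k, (x - Pi.single k 1 : Fin d → ℤ) i = x i := by
      intro i hi
      simp [Pi.single_eq_of_ne hi]
    refine ⟨x - Pi.single k 1, (x - Pi.single k 1, k), Or.inr ⟨by simp [tip], rfl⟩, hx',
      Or.inr ⟨by simp, h⟩, ?_⟩
    have h2 := l1_change (y := y) hx'
    have h3 : (x - Pi.single k 1 : Fin d → ℤ) k = x k - 1 := by simp
    rw [h3] at h2
    omega

lemma exists_path (x y : Fin d → ℤ) : ∃ es : List (Edge d), IsPath es x y := by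
  induction hn : l1 x y using Nat.strong_induction_on generalizing x with
  | _ n ih =>
    by_cases hxy : x = y
    · exact ⟨[], hxy⟩
    · obtain ⟨k, hk⟩ := Function.ne_iff.1 hxy
      obtain ⟨x', e, he, -, -, h4⟩ := step_toward hk
      obtain ⟨es, hes⟩ := ih (l1 x' y) (by omega) x' rfl
      exact ⟨e :: es, x', he, hes⟩

lemma path_append {es es' : List (Edge d)} {x y z : Fin d → ℤ} (h : IsPath es x y)
    (h' : IsPath es' y z) : IsPath (es ++ es') x z := by
  induction es generalizing x with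
  | nil =>
    have : x = y := h
    exact this ▸ h'
  | cons e es ih =>
    obtain ⟨u, hu, hp⟩ := h
    exact ⟨u, hu, ih hp⟩

lemma T_le_of_path {ω : Edge d → ℝ≥0} {x y : Fin d → ℤ} {es : List (Edge d)}
    (h : IsPath es x y) : T ω x y ≤ (es.map ω).sum := csInf_le' ⟨es, h, rfl⟩

lemma T_nonempty (ω : Edge d → ℝ≥0) (x y : Fin d → ℤ) :
    {c | ∃ es : List (Edge d), IsPath es x y ∧ c = (es.map ω).sum}.Nonempty := by
  obtain ⟨es, hes⟩ := exists_path x y
  exact ⟨_, es, hes, rfl⟩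

lemma T_self (ω : Edge d → ℝ≥0) (x : Fin d → ℤ) : T ω x x = 0 := by
  have := T_le_of_path (ω := ω) (x := x) (y := x) (es := []) rfl
  simpa using this

lemma T_triangle (ω : Edge d → ℝ≥0) (x y z : Fin d → ℤ) :
    T ω x z ≤ T ω x y + T ω y z := by
  rw [← tsub_le_iff_right]
  apply le_csInf (T_nonempty ω x y)
  rintro a ⟨es, hes, rfl⟩
  rw [tsub_le_iff_left, ← tsub_le_iff_left, tsub_le_iff_left, ← tsub_le_iff_right]
  apply le_csInf (T_nonempty ω y z)
  rintro b ⟨es', hes', rfl⟩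
  rw [tsub_le_iff_right]
  have := T_le_of_path (ω := ω) (path_append hes hes')
  rw [List.map_append, List.sum_append] at this
  rwa [add_comm]

lemma T_le_edge {ω : Edge d → ℝ≥0} {e : Edge d} {x y : Fin d → ℤ} (h : Joins e x y) :
    T ω x y ≤ ω e := by
  have := T_le_of_path (ω := ω) (x := x) (y := y) (es := [e]) ⟨y, h, rfl⟩
  simpa using this

/-- The first step of a path. -/
lemma T_step {ω : Edge d → ℝ≥0} {e : Edge d} {x x' y : Fin d → ℤ} (h : Joins e x x') :
    T ω x y ≤ ω e + T ω x' y :=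
  (T_triangle ω x x' y).trans (add_le_add (T_le_edge h) le_rfl)

/-! ### Translations -/

/-- The configuration seen from `v`. -/
def shift (v : Fin d → ℤ) (ω : Edge d → ℝ≥0) : Edge d → ℝ≥0 := fun e => ω (e.1 + v, e.2)

lemma tip_shift (v : Fin d → ℤ) (e : Edge d) : tip ((e.1 + v, e.2) : Edge d) = tip e + v := by
  simp only [tip]
  abel

lemma joins_shift {v : Fin d → ℤ} {e : Edge d} {x y : Fin d → ℤ} (h : Joins e x y) :
    Joins (e.1 + v, e.2) (x + v) (y + v) := by
  rcases h with ⟨h1, h2⟩ | ⟨h1, h2⟩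
  · left; exact ⟨by rw [h1], by rw [h2, tip_shift]⟩
  · right; exact ⟨by rw [h1, tip_shift], by rw [h2]⟩

lemma path_shift {v : Fin d → ℤ} {es : List (Edge d)} {x y : Fin d → ℤ} (h : IsPath es x y) :
    IsPath (es.map fun e => ((e.1 + v, e.2) : Edge d)) (x + v) (y + v) := by
  induction es generalizing x with
  | nil =>
    have : x = y := h
    subst this
    rfl
  | cons e es ih =>
    obtain ⟨u, hu, hp⟩ := h
    exact ⟨u + v, joins_shift hu, ih hp⟩

lemma T_shift_le (v : Fin d → ℤ) (ω : Edge d → ℝ≥0) (x y : Fin d → ℤ) :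
    T ω (x + v) (y + v) ≤ T (shift v ω) x y := by
  apply le_csInf (T_nonempty _ x y)
  rintro a ⟨es, hes, rfl⟩
  have := T_le_of_path (ω := ω) (path_shift (v := v) hes)
  rw [List.map_map] at this
  exact this

lemma shift_shift (v : Fin d → ℤ) (ω : Edge d → ℝ≥0) : shift (-v) (shift v ω) = ω := by
  funext e
  simp only [shift]
  congr 1
  ext <;> simp

lemma T_shift (v : Fin d → ℤ) (ω : Edge d → ℝ≥0) (x y : Fin d → ℤ) :
    T (shift v ω) x y = T ω (x + v) (y + v) := by
  apply le_antisymm _ (T_shift_le v ω x y)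
  have h := T_shift_le (-v) (shift v ω) (x + v) (y + v)
  rw [shift_shift] at h
  simpa using h

end Pool.Agent.Y400.BN
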