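import Pool.Agent.Y400.BN.Base

set_option autoImplicit false

open MeasureTheory
open scoped NNReal ENNReal

namespace Pool.Agent.Y400.BN

open Pool.Agent.H588R3.FPP

variable {d : ℕ}

/-- The region surrounded by expensive edges: `-h ≤ x_o < N` and `|x_j| ≤ R` for `j ≠ o`. -/
def InD (o : Fin d) (N R h : ℕ) (x : Fin d → ℤ) : Prop :=
  (-(h : ℤ) ≤ x o ∧ x o + 1 ≤ N) ∧ ∀ j, j ≠ o → (-(R : ℤ) ≤ x j ∧ x j ≤ R)

/-- The closed region: `InD` together with the sites around it. -/
def InB (o : Fin d) (N R h : ℕ) (x : Fin d → ℤ) : Prop :=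
  (-(h : ℤ) - 1 ≤ x o ∧ x o ≤ N) ∧ ∀ j, j ≠ o → (-(R : ℤ) - 1 ≤ x j ∧ x j ≤ R + 1)

/-- The cheap sites: the box of radius `r` and the tunnel from `0` to `N e_o`. -/
def InC (o : Fin d) (r N : ℕ) (x : Fin d → ℤ) : Prop :=
  (∀ j, -(r : ℤ) ≤ x j ∧ x j ≤ r) ∨ ((0 ≤ x o ∧ x o ≤ N) ∧ ∀ j, j ≠ o → x j = 0)

/-- The trapping configuration. -/
structure Trap (o : Fin d) (r N R h : ℕ) (α β : ℝ≥0) (ω : Edge d → ℝ≥0) : Prop where
  tun : ∀ e : Edge d, InC o r N e.1 → InC o r N (tip e) → ω e ≤ α
  exp : ∀ e : Edge d, (InD o N R h e.1 ∨ InD o N R h (tip e)) →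
    ¬ (InC o r N e.1 ∧ InC o r N (tip e)) → β ≤ ω e
  cheap : ∀ e : Edge d, InB o N R h e.1 → InB o N R h (tip e) → ¬ InD o N R h e.1 →
    ¬ InD o N R h (tip e) → ω e ≤ α

/-- The mouth of the tunnel. -/
def mouth (o : Fin d) (N : ℕ) : Fin d → ℤ := Pi.single o (N : ℤ)

lemma mouth_o (o : Fin d) (N : ℕ) : mouth o N o = N := by simp [mouth]

lemma mouth_ne {o j : Fin d} (N : ℕ) (h : j ≠ o) : mouth o N j = 0 := by
  simp [mouth, Pi.single_eq_of_ne h]

lemma eq_mouth {o : Fin d} {N : ℕ} {x : Fin d → ℤ} (h : x o = N) (h' : ∀ j, j ≠ o → x j = 0) :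
    x = mouth o N := by
  funext j
  by_cases hj : j = o
  · rw [hj, mouth_o, h]
  · rw [mouth_ne N hj, h' j hj]

section Geometry

variable {o : Fin d} {r N R h : ℕ} {α β : ℝ≥0} {ω : Edge d → ℝ≥0}

lemma InC_mouth : InC o r N (mouth o N) :=
  Or.inr ⟨by rw [mouth_o]; omega, fun _ hj => mouth_ne N hj⟩

lemma InB_mouth : InB o N R h (mouth o N) := by
  refine ⟨by rw [mouth_o]; omega, fun j hj => ?_⟩
  rw [mouth_ne N hj]
  omega

/-- In the cheap set every site is joined to the mouth by a cheap geodesic of the lattice. -/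
lemma tunnel (H : Trap o r N R h α β ω) (hrN : r < N) {p : Fin d → ℤ} (hp : InC o r N p) :
    T ω p (mouth o N) ≤ l1 p (mouth o N) * α := by
  induction hn : l1 p (mouth o N) using Nat.strong_induction_on generalizing p with
  | _ n ih =>
    by_cases hpw : p = mouth o N
    · rw [hpw, T_self]; exact zero_le
    · -- a neighbour in `C` closer to the mouth
      obtain ⟨p', e, he, hC, h4⟩ : ∃ p' : Fin d → ℤ, ∃ e, Joins e p p' ∧ InC o r N p' ∧
          l1 p' (mouth o N) + 1 = l1 p (mouth o N) := by
        by_cases hj : ∃ j, j ≠ o ∧ p j ≠ 0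
        · obtain ⟨j, hjo, hj⟩ := hj
          have hk : p j ≠ mouth o N j := by rw [mouth_ne N hjo]; exact hj
          obtain ⟨p', e, he, h2, h3, h4⟩ := step_toward hk
          refine ⟨p', e, he, ?_, h4⟩
          rcases hp with hp | hp
          · left
            intro i
            by_cases hi : i = j
            · rw [hi]
              rw [mouth_ne N hjo] at h3
              have := hp j
              omega
            · rw [h2 i hi]; exact hp i
          · exact absurd (hp.2 j hjo) hj
        · push Not at hj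
          have hk : p o ≠ mouth o N o := by
            rw [mouth_o]
            intro h5
            exact hpw (eq_mouth h5 hj)
          obtain ⟨p', e, he, h2, h3, h4⟩ := step_toward hk
          refine ⟨p', e, he, ?_, h4⟩
          rw [mouth_o] at h3 hk
          have hpo : -(r : ℤ) ≤ p o ∧ p o ≤ N := by
            rcases hp with hp | hp
            · have := hp o; omega
            · have := hp.1; omega
          by_cases h5 : 0 ≤ p o
          · right
            refine ⟨by omega, fun i hi => ?_⟩
            rw [h2 i hi]; exact hj i hi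
          · left
            intro i
            by_cases hi : i = o
            · rw [hi]; omega
            · rw [h2 i hi, hj i hi]; omega
      have h5 := ih (l1 p' (mouth o N)) (by omega) hC rfl
      have h6 : ω e ≤ α := by
        rcases he with ⟨h7, h8⟩ | ⟨h7, h8⟩
        · exact H.tun e (h7 ▸ hp) (h8 ▸ hC)
        · exact H.tun e (h8 ▸ hC) (h7 ▸ hp)
      calc T ω p (mouth o N) ≤ ω e + T ω p' (mouth o N) := T_step he
        _ ≤ α + (l1 p' (mouth o N) : ℝ≥0) * α := add_le_add h6 h5
        _ = ((l1 p' (mouth o N) + 1 : ℕ) : ℝ≥0) * α := by push_cast; ring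
        _ = _ := by rw [h4, hn]

/-- Moving inside a face. -/
lemma face (H : Trap o r N R h α β ω) {i : Fin d} {c : ℤ} (hc : ∀ z, InD o N R h z → z i ≠ c)
    {x y : Fin d → ℤ} (hx : InB o N R h x) (hy : InB o N R h y) (hxi : x i = c) (hyi : y i = c) :
    T ω x y ≤ l1 x y * α := by
  induction hn : l1 x y using Nat.strong_induction_on generalizing x with
  | _ n ih =>
    by_cases hxy : x = y
    · rw [hxy, T_self]; exact zero_le
    · obtain ⟨k, hk⟩ := Function.ne_iff.1 hxy
      have hki : i ≠ k := by
        rintro rfl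
        exact hk (hxi.trans hyi.symm)
      obtain ⟨x', e, he, h2, h3, h4⟩ := step_toward hk
      have hx'B : InB o N R h x' := by
        refine ⟨?_, fun j hj => ?_⟩
        · by_cases h0 : o = k
          · have h5 := hx.1
            have h6 := hy.1
            rw [h0] at h5 h6 ⊢
            omega
          · rw [h2 _ h0]; exact hx.1
        · by_cases h0 : j = k
          · have h5 := hx.2 j hj
            have h6 := hy.2 j hj
            rw [h0] at h5 h6 ⊢
            omega
          · rw [h2 _ h0]; exact hx.2 j hj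
      have hx'i : x' i = c := by rw [h2 i hki]; exact hxi
      have h5 := ih (l1 x' y) (by omega) hx'B hx'i rfl
      have h6 : ω e ≤ α := by
        have hnx : ¬ InD o N R h x := fun hh => hc x hh hxi
        have hnx' : ¬ InD o N R h x' := fun hh => hc x' hh hx'i
        rcases he with ⟨h7, h8⟩ | ⟨h7, h8⟩
        · exact H.cheap e (h7 ▸ hx) (h8 ▸ hx'B) (h7 ▸ hnx) (h8 ▸ hnx')
        · exact H.cheap e (h8 ▸ hx'B) (h7 ▸ hx) (h8 ▸ hnx') (h7 ▸ hnx)
      calc T ω x y ≤ ω e + T ω x' y := T_step he
        _ ≤ α + (l1 x' y : ℝ≥0) * α := add_le_add h6 h5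
        _ = ((l1 x' y + 1 : ℕ) : ℝ≥0) * α := by push_cast; ring
        _ = _ := by rw [h4, hn]

lemma front (H : Trap o r N R h α β ω) {z : Fin d → ℤ} (hz : InB o N R h z) (hz0 : z o = N) :
    T ω (mouth o N) z ≤ (l1 (mouth o N) z : ℝ≥0) * α := by
  apply face H (i := o) (c := N) _ InB_mouth hz (mouth_o o N) hz0
  intro w hw h2
  have := hw.1.2
  omega

lemma side (H : Trap o r N R h α β ω) {z : Fin d → ℤ} (hz : InB o N R h z)
    {j : Fin d} (hj : j ≠ o) (hzj : z j = R + 1 ∨ z j = -(R : ℤ) - 1) :
    T ω (mouth o N) z ≤ (l1 (mouth o N) z : ℝ≥0) * α := by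
  set y := Function.update z o (N : ℤ) with hy
  have hyo : y o = N := by rw [hy, Function.update_self]
  have hyn : ∀ k, k ≠ o → y k = z k := fun k hk => by rw [hy, Function.update_of_ne hk]
  have hyB : InB o N R h y := by
    refine ⟨by rw [hyo]; omega, fun k hk => ?_⟩
    rw [hyn k hk]; exact hz.2 k hk
  have h1 := front H hyB hyo
  have h2 : T ω y z ≤ l1 y z * α := by
    apply face H (i := j) (c := z j) _ hyB hz (hyn j hj) rfl
    intro w hw h2
    have := hw.2 j hj
    omega
  have h3 : l1 (mouth o N) y + l1 y z = l1 (mouth o N) z := by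
    unfold l1
    rw [← Finset.sum_add_distrib]
    apply Finset.sum_congr rfl
    intro i _
    by_cases hi : i = o
    · rw [hi, mouth_o, hyo]; omega
    · rw [hyn i hi]; omega
  calc T ω (mouth o N) z ≤ T ω (mouth o N) y + T ω y z := T_triangle ω _ y z
    _ ≤ l1 (mouth o N) y * α + l1 y z * α := add_le_add h1 h2
    _ = ((l1 (mouth o N) y + l1 y z : ℕ) : ℝ≥0) * α := by push_cast; ring
    _ = _ := by rw [h3]

lemma back (H : Trap o r N R h α β ω) {j : Fin d} (hj : j ≠ o) {z : Fin d → ℤ}
    (hz : InB o N R h z) (hz0 : z o = -(h : ℤ) - 1) :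
    T ω (mouth o N) z ≤ ((l1 (mouth o N) z + (4 * R + 4) : ℕ) : ℝ≥0) * α := by
  set y := Function.update z j ((R : ℤ) + 1) with hy
  have hyj : y j = R + 1 := by rw [hy, Function.update_self]
  have hyn : ∀ k, k ≠ j → y k = z k := fun k hk => by rw [hy, Function.update_of_ne hk]
  have hyo : y o = -(h : ℤ) - 1 := by rw [hyn o hj.symm]; exact hz0
  have hyB : InB o N R h y := by
    refine ⟨by rw [hyn o hj.symm]; exact hz.1, fun k hk => ?_⟩
    by_cases hkj : k = j
    · rw [hkj, hyj]; omega
    · rw [hyn k hkj]; exact hz.2 k hk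
  have h1 := side H hyB hj (Or.inl hyj)
  have h2 : T ω y z ≤ l1 y z * α := by
    apply face H (i := o) (c := -(h : ℤ) - 1) _ hyB hz hyo hz0
    intro w hw h2
    have := hw.1.1
    omega
  have h4 : l1 y z ≤ 2 * R + 2 := by
    have h5 := l1_change (x := y) (x' := z) (y := z) (k := j) (fun i hi => (hyn i hi).symm)
    rw [l1_self, hyj] at h5
    have := hz.2 j hj
    omega
  have h3 : l1 (mouth o N) y + l1 y z ≤ l1 (mouth o N) z + (4 * R + 4) := by
    have := l1_tri (mouth o N) z y
    rw [l1_comm z y] at this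
    omega
  calc T ω (mouth o N) z ≤ T ω (mouth o N) y + T ω y z := T_triangle ω _ y z
    _ ≤ l1 (mouth o N) y * α + l1 y z * α := add_le_add h1 h2
    _ = ((l1 (mouth o N) y + l1 y z : ℕ) : ℝ≥0) * α := by push_cast; ring
    _ ≤ _ := by
        apply mul_le_mul_left
        exact_mod_cast h3

/-- The numerical conditions. -/
structure Cond (d r N R h : ℕ) (α β : ℝ≥0) : Prop where
  ab : α ≤ β
  rN : r < N
  rR : r ≤ R
  rh : r ≤ h
  cN : (2 * r * d : ℕ) * α + (N - r : ℕ) * α ≤ (N - r : ℕ) * β
  cR : (2 * (r * d + N) : ℕ) * α + (R - r : ℕ) * α ≤ (R - r : ℕ) * β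
  ch : (2 * (r * d + N) + (4 * R + 4) : ℕ) * α + (h - r : ℕ) * α ≤ (h - r : ℕ) * β

lemma arith {A M L : ℕ} (hab : α ≤ β) (h1 : (A : ℝ≥0) * α + M * α ≤ M * β) (h2 : M ≤ L) :
    ((A + L : ℕ) : ℝ≥0) * α ≤ L * β := by
  obtain ⟨m, rfl⟩ := Nat.exists_eq_add_of_le h2
  calc ((A + (M + m) : ℕ) : ℝ≥0) * α = (A * α + M * α) + m * α := by push_cast; ring
    _ ≤ M * β + m * β := by gcongr
    _ = ((M + m : ℕ) : ℝ≥0) * β := by push_cast; ring

lemma l1_mouth_le {p : Fin d → ℤ} (hp : InC o r N p) : l1 p (mouth o N) ≤ r * d + N := by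
  have h1 : ∀ i, (p i - mouth o N i).natAbs ≤ r + if i = o then N else 0 := by
    intro i
    by_cases hi : i = o
    · rw [hi, mouth_o, if_pos rfl]
      rcases hp with hp | hp
      · have := hp o; omega
      · have := hp.1; omega
    · rw [mouth_ne N hi, if_neg hi]
      rcases hp with hp | hp
      · have := hp i; omega
      · have := hp.2 i hi; omega
  calc l1 p (mouth o N) ≤ ∑ i : Fin d, (r + if i = o then N else 0) :=
        Finset.sum_le_sum fun i _ => h1 i
    _ = r * d + N := by
        rw [Finset.sum_add_distrib, Finset.sum_const, Finset.sum_ite_eq' Finset.univ o]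
        simp [mul_comm]

/-- Every exit point is reached more cheaply through the mouth. -/
lemma exit_le (H : Trap o r N R h α β ω) (hc : Cond d r N R h α β) {j : Fin d} (hj : j ≠ o)
    {p z : Fin d → ℤ} (hp : InC o r N p) (hz : InB o N R h z) (hzD : ¬ InD o N R h z) :
    T ω p (mouth o N) + T ω (mouth o N) z ≤ l1 p z * β := by
  have ht := tunnel H hc.rN hp
  have hrN := hc.rN
  have hrR := hc.rR
  have hrh := hc.rh
  have hl := l1_mouth_le (r := r) (N := N) hp
  have htri : l1 (mouth o N) z ≤ l1 p (mouth o N) + l1 p z := by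
    have := l1_tri (mouth o N) p z
    rwa [l1_comm (mouth o N) p] at this
  by_cases h0 : z o = N
  · have hf := front H hz h0
    have h1 : T ω p (mouth o N) + T ω (mouth o N) z ≤
        ((l1 p (mouth o N) + l1 (mouth o N) z : ℕ) : ℝ≥0) * α := by
      push_cast
      rw [add_mul]
      exact add_le_add ht hf
    rcases hp with hp | hp
    · have h2 : l1 p (mouth o N) + l1 (mouth o N) z ≤ 2 * r * d + l1 p z := by
        have h3 : ∀ i, (p i - mouth o N i).natAbs + (mouth o N i - z i).natAbs ≤
            2 * r + (p i - z i).natAbs := by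
          intro i
          have := hp i
          by_cases hi : i = o
          · rw [hi, mouth_o, h0]; omega
          · rw [mouth_ne N hi]; omega
        calc l1 p (mouth o N) + l1 (mouth o N) z
            = ∑ i, ((p i - mouth o N i).natAbs + (mouth o N i - z i).natAbs) := by
              rw [Finset.sum_add_distrib]; rfl
          _ ≤ ∑ i, (2 * r + (p i - z i).natAbs) := Finset.sum_le_sum fun i _ => h3 i
          _ = 2 * r * d + l1 p z := by
              rw [Finset.sum_add_distrib, Finset.sum_const]
              simp [l1, mul_comm]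
      have h4 : N - r ≤ l1 p z := by
        have h5 := le_l1 p z o
        have := hp o
        omega
      refine h1.trans (le_trans ?_ (arith hc.ab hc.cN h4))
      apply mul_le_mul_left
      exact_mod_cast h2
    · have h2 : l1 p (mouth o N) + l1 (mouth o N) z = l1 p z := by
        unfold l1
        rw [← Finset.sum_add_distrib]
        apply Finset.sum_congr rfl
        intro i _
        by_cases hi : i = o
        · rw [hi, mouth_o, h0]; omega
        · rw [mouth_ne N hi, hp.2 i hi]; omega
      rw [h2] at h1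
      refine h1.trans ?_
      have := hc.ab
      gcongr
  by_cases h1 : z o = -(h : ℤ) - 1
  · have hb := back H hj hz h1
    have h2 : T ω p (mouth o N) + T ω (mouth o N) z ≤
        ((2 * (r * d + N) + (4 * R + 4) + l1 p z : ℕ) : ℝ≥0) * α := by
      calc T ω p (mouth o N) + T ω (mouth o N) z
          ≤ l1 p (mouth o N) * α + ((l1 (mouth o N) z + (4 * R + 4) : ℕ) : ℝ≥0) * α :=
            add_le_add ht hb
        _ = ((l1 p (mouth o N) + (l1 (mouth o N) z + (4 * R + 4)) : ℕ) : ℝ≥0) * α := by
            push_cast; ring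
        _ ≤ _ := by
            apply mul_le_mul_left
            have : l1 p (mouth o N) + (l1 (mouth o N) z + (4 * R + 4)) ≤
              2 * (r * d + N) + (4 * R + 4) + l1 p z := by omega
            exact_mod_cast this
    have h4 : h - r ≤ l1 p z := by
      have h5 := le_l1 p z o
      have h6 : -(r : ℤ) ≤ p o := by
        rcases hp with hp | hp
        · exact (hp o).1
        · have := hp.1; omega
      omega
    exact h2.trans (arith hc.ab hc.ch h4)
  · have h3 : ∃ j : Fin d, j ≠ o ∧ ¬ (-(R : ℤ) ≤ z j ∧ z j ≤ R) := by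
      by_contra hcon
      push Not at hcon
      apply hzD
      refine ⟨by have := hz.1; omega, fun j hj => ?_⟩
      by_contra h4
      exact absurd (hcon j hj) h4
    obtain ⟨j, hj, hzj⟩ := h3
    have h4 := hz.2 j hj
    have h5 : z j = R + 1 ∨ z j = -(R : ℤ) - 1 := by omega
    have hs := side H hz hj h5
    have h2 : T ω p (mouth o N) + T ω (mouth o N) z ≤
        ((2 * (r * d + N) + l1 p z : ℕ) : ℝ≥0) * α := by
      calc T ω p (mouth o N) + T ω (mouth o N) z
          ≤ l1 p (mouth o N) * α + (l1 (mouth o N) z : ℝ≥0) * α := add_le_add ht hs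
        _ = ((l1 p (mouth o N) + l1 (mouth o N) z : ℕ) : ℝ≥0) * α := by
            push_cast; ring
        _ ≤ _ := by
            apply mul_le_mul_left
            have : l1 p (mouth o N) + l1 (mouth o N) z ≤ 2 * (r * d + N) + l1 p z := by omega
            exact_mod_cast this
    have h6 : R - r ≤ l1 p z := by
      have h7 := le_l1 p z j
      have h8 : -(r : ℤ) ≤ p j ∧ p j ≤ r := by
        rcases hp with hp | hp
        · exact hp j
        · have := hp.2 j hj; omega
      omega
    exact h2.trans (arith hc.ab hc.cR h6)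

lemma InB_of_joins {e : Edge d} {x x' : Fin d → ℤ} (he : Joins e x x') (hx : InD o N R h x) :
    InB o N R h x' := by
  obtain ⟨h1, h2⟩ := joins_coord he
  refine ⟨?_, fun j hj => ?_⟩
  · by_cases h0 : o = e.2
    · have h5 := hx.1
      rw [h0] at h5 ⊢
      omega
    · rw [h1 _ h0]
      have := hx.1
      omega
  · by_cases h0 : j = e.2
    · have h5 := hx.2 j hj
      rw [h0] at h5 ⊢
      omega
    · rw [h1 _ h0]
      have := hx.2 j hj
      omega

/-- Lower bound for the cost of a path leaving the region. -/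
lemma lower_path (H : Trap o r N R h α β ω) (hc : Cond d r N R h α β) {y : Fin d → ℤ}
    (hy : ¬ InD o N R h y) :
    ∀ (es : List (Edge d)) (x : Fin d → ℤ), InD o N R h x → IsPath es x y →
      T ω x (mouth o N) + T ω (mouth o N) y ≤ (es.map ω).sum ∨
      ∃ p z, (p = x ∨ InC o r N p) ∧ InB o N R h z ∧ ¬ InD o N R h z ∧
        T ω x p + l1 p z * β + T ω z y ≤ (es.map ω).sum := by
  intro es
  induction es with
  | nil =>
    intro x hx hp
    have : x = y := hp
    exact absurd (this ▸ hx) hy
  | cons e es ih =>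
    rintro x hx ⟨x', he, hp⟩
    rw [List.map_cons, List.sum_cons]
    have hx'B : InB o N R h x' := InB_of_joins he hx
    have htouch : InD o N R h e.1 ∨ InD o N R h (tip e) := by
      rcases he with ⟨h7, h8⟩ | ⟨h7, h8⟩
      · left; exact h7 ▸ hx
      · right; exact h7 ▸ hx
    have hexp : ¬ (InC o r N x ∧ InC o r N x') → β ≤ ω e := by
      intro hn
      apply H.exp e htouch
      rcases he with ⟨h7, h8⟩ | ⟨h7, h8⟩
      · rwa [h7, h8] at hn
      · rw [h7, h8] at hn
        exact fun h9 => hn ⟨h9.2, h9.1⟩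
    by_cases hx' : InD o N R h x'
    · rcases ih x' hx' hp with h1 | ⟨p, z, hpx, hz1, hz2, hz3⟩
      · left
        calc T ω x (mouth o N) + T ω (mouth o N) y
            ≤ (ω e + T ω x' (mouth o N)) + T ω (mouth o N) y :=
              add_le_add (T_step he) le_rfl
          _ = ω e + (T ω x' (mouth o N) + T ω (mouth o N) y) := by rw [add_assoc]
          _ ≤ _ := add_le_add le_rfl h1
      · right
        by_cases hpC : InC o r N p
        · refine ⟨p, z, Or.inr hpC, hz1, hz2, ?_⟩
          calc T ω x p + l1 p z * β + T ω z y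
              ≤ (ω e + T ω x' p) + l1 p z * β + T ω z y := by
                gcongr
                exact T_step he
            _ = ω e + (T ω x' p + l1 p z * β + T ω z y) := by ring
            _ ≤ _ := add_le_add le_rfl hz3
        · have hpx' : p = x' := hpx.resolve_right hpC
          subst hpx'
          have hβ := hexp (fun h9 => hpC h9.2)
          refine ⟨x, z, Or.inl rfl, hz1, hz2, ?_⟩
          have h5 : ((l1 x z : ℕ) : ℝ≥0) ≤ 1 + (l1 p z : ℕ) := by
            exact_mod_cast l1_joins he z
          rw [T_self, zero_add] at hz3 ⊢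
          calc (l1 x z : ℝ≥0) * β + T ω z y ≤ (1 + (l1 p z : ℝ≥0)) * β + T ω z y := by
                gcongr
            _ = β + ((l1 p z : ℝ≥0) * β + T ω z y) := by ring
            _ ≤ ω e + (es.map ω).sum := add_le_add hβ hz3
    · by_cases hCC : InC o r N x ∧ InC o r N x'
      · left
        have hw : x' = mouth o N := by
          have h1 := hc.rN
          have h2 := hc.rR
          have h3 := hc.rh
          rcases hCC.2 with h4 | h4
          · exfalso
            apply hx'
            refine ⟨?_, fun j hj => ?_⟩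
            · have := h4 o; omega
            · have := h4 j; omega
          · apply eq_mouth _ h4.2
            by_contra h5
            apply hx'
            refine ⟨?_, fun j hj => ?_⟩
            · have := h4.1; omega
            · have := h4.2 j hj; omega
        rw [← hw]
        exact add_le_add (T_le_edge he) (T_le_of_path hp)
      · right
        have hβ := hexp hCC
        refine ⟨x, x', Or.inl rfl, hx'B, hx', ?_⟩
        have h5 : l1 x x' ≤ 1 := by
          have := l1_joins he x'
          rwa [l1_self] at this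
        have h6 : ((l1 x x' : ℕ) : ℝ≥0) ≤ 1 := by exact_mod_cast h5
        rw [T_self, zero_add]
        calc (l1 x x' : ℝ≥0) * β + T ω x' y ≤ 1 * β + T ω x' y := by gcongr
          _ = β + T ω x' y := by rw [one_mul]
          _ ≤ ω e + (es.map ω).sum := add_le_add hβ (T_le_of_path hp)

/-- **Bottleneck.** In the trapping configuration, every geodesic from the box of radius `r` to a
site outside the region passes through the mouth. -/
theorem forced (H : Trap o r N R h α β ω) (hc : Cond d r N R h α β) {j : Fin d} (hj : j ≠ o)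
    {x y : Fin d → ℤ} (hx : ∀ i, -(r : ℤ) ≤ x i ∧ x i ≤ r) (hy : ¬ InD o N R h y) :
    T ω x y = T ω x (mouth o N) + T ω (mouth o N) y := by
  apply le_antisymm (T_triangle ω x (mouth o N) y)
  apply le_csInf (T_nonempty ω x y)
  rintro c ⟨es, hes, rfl⟩
  have hxD : InD o N R h x := by
    have h1 := hc.rN
    have h2 := hc.rR
    have h3 := hc.rh
    refine ⟨by have := hx o; omega, fun i _ => by have := hx i; omega⟩
  rcases lower_path H hc hy es x hxD hes with h1 | ⟨p, z, hp, hz1, hz2, hz3⟩
  · exact h1
  · have hpC : InC o r N p := by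
      rcases hp with hp | hp
      · rw [hp]; exact Or.inl hx
      · exact hp
    refine le_trans ?_ hz3
    calc T ω x (mouth o N) + T ω (mouth o N) y
        ≤ (T ω x p + T ω p (mouth o N)) + (T ω (mouth o N) z + T ω z y) :=
          add_le_add (T_triangle ω x p _) (T_triangle ω _ z y)
      _ = T ω x p + (T ω p (mouth o N) + T ω (mouth o N) z) + T ω z y := by ring
      _ ≤ T ω x p + l1 p z * β + T ω z y := by
          gcongr
          exact exit_le H hc hj hpC hz1 hz2

end Geometry

end Pool.Agent.Y400.BN
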