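import Mathlib

set_option autoImplicit false

open MeasureTheory ProbabilityTheory Filter Topology
open scoped NNReal ENNReal

namespace Pool.Agent.Y400.BN

section

variable {A Ω₀ : Type} [MeasurableSpace Ω₀] (F : Measure Ω₀) [IsProbabilityMeasure F]

/-- The `m`-th copy of the cylinder event. -/
def Ev (K : Finset A) (g : ℕ → A → A) (t : A → Set Ω₀) (m : ℕ) : Set (A → Ω₀) :=
  {ω | ∀ e ∈ K, ω (g m e) ∈ t e}

variable {F} {K : Finset A} {g : ℕ → A → A} {t : A → Set Ω₀}

lemma Ev_meas (ht : ∀ e, MeasurableSet (t e)) (m : ℕ) : MeasurableSet (Ev K g t m) := by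
  have : Ev K g t m = ⋂ e ∈ K, (fun ω : A → Ω₀ => ω (g m e)) ⁻¹' t e := by
    ext ω; simp [Ev]
  rw [this]
  exact Finset.measurableSet_biInter _ fun e _ => measurable_pi_apply _ (ht e)

lemma prob_coord (a : A) {s : Set Ω₀} (hs : MeasurableSet s) :
    Measure.infinitePi (fun _ : A => F) {ω | ω a ∈ s} = F s := by
  have h := Measure.infinitePi_map_eval (fun _ : A => F) a
  have h2 : ((Measure.infinitePi fun _ : A => F).map fun ω => ω a) s = F s := by rw [h]
  rw [Measure.map_apply (measurable_pi_apply a) hs] at h2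
  exact h2

lemma prob_inter (ht : ∀ e, MeasurableSet (t e))
    (hg : ∀ m m' : ℕ, ∀ e ∈ K, ∀ e' ∈ K, g m e = g m' e' → m = m' ∧ e = e') (S : Finset ℕ) :
    Measure.infinitePi (fun _ : A => F) (⋂ m ∈ S, Ev K g t m) =
      ∏ _m ∈ S, ∏ e ∈ K, F (t e) := by
  classical
  have hind : iIndepFun (fun (a : A) (ω : A → Ω₀) => ω a) (Measure.infinitePi fun _ : A => F) :=
    iIndepFun_infinitePi (X := fun (_ : A) (f : Ω₀) => f) fun _ => measurable_id
  have hinj : Function.Injective (fun i : ℕ × {e // e ∈ K} => g i.1 i.2.1) := by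
    rintro ⟨m, e, he⟩ ⟨m', e', he'⟩ h
    obtain ⟨h1, h2⟩ := hg m m' e he e' he' h
    subst h1
    subst h2
    rfl
  have hind2 : iIndepFun (fun (i : ℕ × {e // e ∈ K}) (ω : A → Ω₀) => ω (g i.1 i.2.1))
      (Measure.infinitePi fun _ : A => F) := hind.precomp hinj
  have h1 : (⋂ m ∈ S, Ev K g t m) = ⋂ i ∈ S ×ˢ K.attach,
      (fun ω : A → Ω₀ => ω (g i.1 i.2.1)) ⁻¹' t i.2.1 := by
    ext ω
    simp only [Ev, Set.mem_iInter, Set.mem_ofPred_eq, Finset.mem_product, Finset.mem_attach,
      and_true, Set.mem_preimage]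
    constructor
    · intro h i hi
      exact h i.1 hi i.2.1 i.2.2
    · intro h m hm e he
      exact h ⟨m, e, he⟩ hm
  rw [h1, hind2.measure_inter_preimage_eq_mul (S ×ˢ K.attach) (sets := fun i => t i.2.1)
    (fun i _ => ht i.2.1), Finset.prod_product]
  refine Finset.prod_congr rfl fun m _ => ?_
  rw [← Finset.prod_attach K]
  refine Finset.prod_congr rfl fun e _ => ?_
  exact prob_coord _ (ht _)

lemma prob_Ev (ht : ∀ e, MeasurableSet (t e))
    (hg : ∀ m m' : ℕ, ∀ e ∈ K, ∀ e' ∈ K, g m e = g m' e' → m = m' ∧ e = e') (m : ℕ) :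
    Measure.infinitePi (fun _ : A => F) (Ev K g t m) = ∏ e ∈ K, F (t e) := by
  have h := prob_inter (F := F) ht hg {m}
  simpa using h

lemma prob_pos (ht : ∀ e, MeasurableSet (t e))
    (hg : ∀ m m' : ℕ, ∀ e ∈ K, ∀ e' ∈ K, g m e = g m' e' → m = m' ∧ e = e')
    (hF : ∀ e ∈ K, 0 < F (t e)) (m : ℕ) :
    0 < Measure.infinitePi (fun _ : A => F) (Ev K g t m) := by
  rw [prob_Ev ht hg, pos_iff_ne_zero, Finset.prod_ne_zero_iff]
  exact fun e he => (hF e he).ne'

lemma indep_Ev (ht : ∀ e, MeasurableSet (t e))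
    (hg : ∀ m m' : ℕ, ∀ e ∈ K, ∀ e' ∈ K, g m e = g m' e' → m = m' ∧ e = e') :
    iIndepSet (Ev K g t) (Measure.infinitePi fun _ : A => F) := by
  rw [iIndepSet_iff_meas_biInter fun m => Ev_meas ht m]
  intro S
  rw [prob_inter ht hg]
  exact Finset.prod_congr rfl fun m _ => (prob_Ev ht hg m).symm

open Classical in
/-- The copies of a cylinder event of positive probability on disjoint finite sets of coordinates
occur with positive density. -/
theorem density (ht : ∀ e, MeasurableSet (t e))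
    (hg : ∀ m m' : ℕ, ∀ e ∈ K, ∀ e' ∈ K, g m e = g m' e' → m = m' ∧ e = e')
    (hF : ∀ e ∈ K, 0 < F (t e)) :
    ∀ᵐ ω ∂(Measure.infinitePi fun _ : A => F), ∀ᶠ M : ℕ in atTop,
      (∏ e ∈ K, F (t e)).toReal / 2 * M ≤
        ((Finset.range M).filter fun m => ω ∈ Ev K g t m).card := by
  set P := Measure.infinitePi fun _ : A => F with hP
  set X : ℕ → (A → Ω₀) → ℝ := fun m => (Ev K g t m).indicator fun _ => (1 : ℝ) with hX
  have hmeas : ∀ m, Measurable (X m) := fun m => measurable_const.indicator (Ev_meas ht m)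
  have hind : iIndepFun X P := (indep_Ev ht hg).iIndepFun_indicator
  have hint : Integrable (X 0) P :=
    (integrable_const (1 : ℝ)).indicator (Ev_meas ht 0)
  have hid : ∀ m, IdentDistrib (X m) (X 0) P P := by
    intro m
    refine ⟨(hmeas m).aemeasurable, (hmeas 0).aemeasurable, ?_⟩
    ext s hs
    rw [Measure.map_apply (hmeas m) hs, Measure.map_apply (hmeas 0) hs]
    have hcalc : ∀ k, P (X k ⁻¹' s) = if (1 : ℝ) ∈ s then (if (0 : ℝ) ∈ s then 1 else
        ∏ e ∈ K, F (t e)) else (if (0 : ℝ) ∈ s then 1 - ∏ e ∈ K, F (t e) else 0) := by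
      intro k
      by_cases h1 : (1 : ℝ) ∈ s <;> by_cases h0 : (0 : ℝ) ∈ s
      · have : X k ⁻¹' s = Set.univ := by
          ext ω
          by_cases hω : ω ∈ Ev K g t k <;> simp [hX, hω, h1, h0]
        rw [this, if_pos h1, if_pos h0]; exact measure_univ
      · have : X k ⁻¹' s = Ev K g t k := by
          ext ω
          by_cases hω : ω ∈ Ev K g t k <;> simp [hX, hω, h1, h0]
        rw [this, if_pos h1, if_neg h0]; exact prob_Ev ht hg k
      · have : X k ⁻¹' s = (Ev K g t k)ᶜ := by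
          ext ω
          by_cases hω : ω ∈ Ev K g t k <;> simp [hX, hω, h1, h0]
        rw [this, if_neg h1, if_pos h0, prob_compl_eq_one_sub (Ev_meas ht k), prob_Ev ht hg k]
      · have : X k ⁻¹' s = ∅ := by
          ext ω
          by_cases hω : ω ∈ Ev K g t k <;> simp [hX, hω, h1, h0]
        rw [this, if_neg h1, if_neg h0]; exact measure_empty
    rw [hcalc, hcalc]
  have hlim := strong_law_ae_real X hint (fun i j hij => hind.indepFun hij) hid
  have hexp : P[X 0] = P.real (Ev K g t 0) := by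
    rw [hX]
    simp only
    rw [integral_indicator_const _ (Ev_meas ht 0)]
    simp
  have hpos : 0 < P.real (Ev K g t 0) :=
    ENNReal.toReal_pos (prob_pos ht hg hF 0).ne' (measure_ne_top _ _)
  have hval : (∏ e ∈ K, F (t e)).toReal = P.real (Ev K g t 0) := by
    rw [Measure.real, hP, prob_Ev ht hg]
  rw [hval]
  filter_upwards [hlim] with ω hω
  rw [hexp] at hω
  have h2 : ∀ᶠ M : ℕ in atTop, P.real (Ev K g t 0) / 2 <
      (∑ i ∈ Finset.range M, X i ω) / M := hω.eventually_const_lt (by linarith)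
  filter_upwards [h2, eventually_gt_atTop 0] with M hM hM0
  have hM' : (0 : ℝ) < M := by exact_mod_cast hM0
  rw [lt_div_iff₀ hM'] at hM
  have h3 : ∑ i ∈ Finset.range M, X i ω =
      ((Finset.range M).filter fun m => ω ∈ Ev K g t m).card := by
    rw [Finset.card_filter]
    push_cast
    refine Finset.sum_congr rfl fun i _ => ?_
    by_cases hi : ω ∈ Ev K g t i <;> simp [hX, hi]
  rw [h3] at hM
  exact hM.le

end

end Pool.Agent.Y400.BN
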