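import Pool.Agent.Y400.BN.Geo
import Pool.Agent.Y400.BN.Prob

set_option autoImplicit false

open MeasureTheory ProbabilityTheory Filter Topology
open scoped NNReal ENNReal

namespace Pool.Agent.Y400.BN

open Pool.Agent.H588R3.FPP

variable {d : ℕ}

/-- `Bottleneck r ω v`: there are a site `w` and a finite set `D` of sites such that
`T(x, y) = T(x, w) + T(w, y)` for every site `x` of the box of radius `r` around `v` and every
site `y` outside `D`. -/
def Bottleneck (r : ℕ) (ω : Edge d → ℝ≥0) (v : Fin d → ℤ) : Prop :=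
  ∃ (w : Fin d → ℤ) (D : Finset (Fin d → ℤ)), ∀ x : Fin d → ℤ, (∀ i, |x i - v i| ≤ (r : ℤ)) →
    ∀ y ∉ D, T ω x y = T ω x w + T ω w y

/-- `BusemannLimits r ω v`: for all sites `x, x'` of the box of radius `r` around `v` the
difference `T(x, y) - T(x', y)` is constant in `y` outside a finite set of sites. -/
def BusemannLimits (r : ℕ) (ω : Edge d → ℝ≥0) (v : Fin d → ℤ) : Prop :=
  ∀ x x' : Fin d → ℤ, (∀ i, |x i - v i| ≤ (r : ℤ)) → (∀ i, |x' i - v i| ≤ (r : ℤ)) →
    ∃ L : ℝ, ∀ᶠ y : Fin d → ℤ in cofinite, (T ω x y : ℝ) - (T ω x' y : ℝ) = L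

lemma Bottleneck.busemann {r : ℕ} {ω : Edge d → ℝ≥0} {v : Fin d → ℤ} (h : Bottleneck r ω v) :
    BusemannLimits r ω v := by
  obtain ⟨w, D, hD⟩ := h
  intro x x' hx hx'
  refine ⟨(T ω x w : ℝ) - T ω x' w, ?_⟩
  have hfin : {y : Fin d → ℤ | ¬ ((T ω x y : ℝ) - (T ω x' y : ℝ) = (T ω x w : ℝ) - T ω x' w)} ⊆
      (D : Set (Fin d → ℤ)) := by
    intro y hy
    by_contra hyD
    apply hy
    rw [hD x hx y hyD, hD x' hx' y hyD]
    push_cast
    ring
  exact (D.finite_toSet.subset hfin)

lemma exists_levels (F : Measure ℝ≥0) [IsProbabilityMeasure F] (hF : ∀ c, F {c} ≠ 1) :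
    ∃ α β : ℝ≥0, α < β ∧ 0 < F (Set.Iic α) ∧ 0 < F (Set.Ici β) := by
  have key : ∀ a b : ℝ≥0, a ∈ F.support → b ∈ F.support → a < b →
      ∃ α β : ℝ≥0, α < β ∧ 0 < F (Set.Iic α) ∧ 0 < F (Set.Ici β) := by
    intro a b ha hb hab
    obtain ⟨α, h1, h2⟩ := exists_between hab
    obtain ⟨β, h3, h4⟩ := exists_between h2
    refine ⟨α, β, h3, ?_, ?_⟩
    · exact Measure.mem_support_iff_forall a |>.1 ha _ (Iic_mem_nhds h1)
    · exact Measure.mem_support_iff_forall b |>.1 hb _ (Ici_mem_nhds h4)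
  obtain ⟨a, ha⟩ := Measure.nonempty_support (μ := F) (IsProbabilityMeasure.ne_zero F)
  by_cases h : ∀ b ∈ F.support, b = a
  · exfalso
    apply hF a
    have h1 : F ({a}ᶜ) = 0 := by
      apply measure_mono_null _ (Measure.measure_compl_support (μ := F))
      intro x hx hx'
      exact hx (h x hx')
    rw [prob_compl_eq_zero_iff (measurableSet_singleton a)] at h1
    exact h1
  · push Not at h
    obtain ⟨b, hb, hba⟩ := h
    rcases lt_or_gt_of_ne hba with h1 | h1
    · exact key b a hb ha h1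
    · exact key a b ha hb h1

lemma exists_large {α β : ℝ≥0} (hαβ : α < β) (A : ℕ) :
    ∃ M : ℕ, (A : ℝ≥0) * α + M * α ≤ M * β := by
  have hpos : (0 : ℝ) < (β : ℝ) - α := sub_pos.2 (by exact_mod_cast hαβ)
  obtain ⟨M, hM⟩ := exists_nat_ge ((A : ℝ) * (α : ℝ) / (β - α))
  rw [div_le_iff₀ hpos] at hM
  refine ⟨M, ?_⟩
  rw [← NNReal.coe_le_coe]
  push_cast
  nlinarith

lemma exists_cond (d r : ℕ) {α β : ℝ≥0} (hαβ : α < β) :
    ∃ N R h : ℕ, Cond d r N R h α β := by
  obtain ⟨M1, h1⟩ := exists_large hαβ (2 * r * d)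
  obtain ⟨M2, h2⟩ := exists_large hαβ (2 * (r * d + (r + M1 + 1)))
  obtain ⟨M3, h3⟩ := exists_large hαβ (2 * (r * d + (r + M1 + 1)) + (4 * (r + M2) + 4))
  refine ⟨r + M1 + 1, r + M2, r + M3, hαβ.le, by omega, by omega, by omega, ?_, ?_, ?_⟩
  · have e : r + M1 + 1 - r = M1 + 1 := by omega
    rw [e]
    calc ((2 * r * d : ℕ) : ℝ≥0) * α + (M1 + 1 : ℕ) * α
        = (((2 * r * d : ℕ) : ℝ≥0) * α + M1 * α) + α := by push_cast; ring
      _ ≤ M1 * β + β := add_le_add h1 hαβ.le
      _ = ((M1 + 1 : ℕ) : ℝ≥0) * β := by push_cast; ring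
  · have e : r + M2 - r = M2 := by omega
    rw [e]
    exact h2
  · have e : r + M3 - r = M3 := by omega
    rw [e]
    exact h3

section

variable {o : Fin d} {r N R h : ℕ} {α β : ℝ≥0}

/-- The sites with all coordinates at most `W` in absolute value. -/
noncomputable def bigBox (d W : ℕ) : Finset (Fin d → ℤ) := Finset.Icc (fun _ => -(W : ℤ)) fun _ => (W : ℤ)

lemma mem_bigBox {W : ℕ} {x : Fin d → ℤ} : x ∈ bigBox d W ↔ ∀ i, -(W : ℤ) ≤ x i ∧ x i ≤ W := by
  rw [bigBox, Finset.mem_Icc]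
  constructor
  · rintro ⟨h1, h2⟩ i
    exact ⟨h1 i, h2 i⟩
  · intro h
    exact ⟨fun i => (h i).1, fun i => (h i).2⟩

open Classical in
/-- The allowed values of the edges in the trapping configuration. -/
noncomputable def allowed (o : Fin d) (r N R h : ℕ) (α β : ℝ≥0) (e : Edge d) : Set ℝ≥0 :=
  if (InC o r N e.1 ∧ InC o r N (tip e)) ∨ ¬ (InD o N R h e.1 ∨ InD o N R h (tip e))
  then Set.Iic α else Set.Ici β

lemma allowed_meas (e : Edge d) : MeasurableSet (allowed o r N R h α β e) := by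
  unfold allowed
  split_ifs
  · exact measurableSet_Iic
  · exact measurableSet_Ici

lemma allowed_pos {F : Measure ℝ≥0} (hα : 0 < F (Set.Iic α)) (hβ : 0 < F (Set.Ici β))
    (e : Edge d) : 0 < F (allowed o r N R h α β e) := by
  unfold allowed
  split_ifs
  · exact hα
  · exact hβ

/-- The edges on which the configuration is prescribed. -/
noncomputable def edges (d W : ℕ) : Finset (Edge d) := bigBox d W ×ˢ Finset.univ

lemma InB_big {x : Fin d → ℤ} (hx : InB o N R h x) : x ∈ bigBox d (N + R + h + 2) := by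
  rw [mem_bigBox]
  intro i
  by_cases hi : i = o
  · rw [hi]
    have := hx.1
    push_cast
    omega
  · have := hx.2 i hi
    push_cast
    omega

lemma InC_big (hrN : r < N) {x : Fin d → ℤ} (hx : InC o r N x) :
    x ∈ bigBox d (N + R + h + 2) := by
  rw [mem_bigBox]
  intro i
  rcases hx with hx | hx
  · have := hx i
    push_cast
    omega
  · by_cases hi : i = o
    · rw [hi]
      have := hx.1
      push_cast
      omega
    · rw [hx.2 i hi]
      push_cast
      omega

lemma InD_B {x : Fin d → ℤ} (hx : InD o N R h x) : InB o N R h x :=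
  ⟨by have := hx.1; omega, fun j hj => by have := hx.2 j hj; omega⟩

lemma mem_edges {W : ℕ} {e : Edge d} (h : e.1 ∈ bigBox d W) : e ∈ edges d W :=
  Finset.mem_product.2 ⟨h, Finset.mem_univ _⟩

lemma trap_of_allowed (hrN : r < N) {ω : Edge d → ℝ≥0}
    (H : ∀ e ∈ edges d (N + R + h + 2), ω e ∈ allowed o r N R h α β e) :
    Trap o r N R h α β ω := by
  refine ⟨?_, ?_, ?_⟩
  · intro e h1 h2
    have h3 := H e (mem_edges (InC_big hrN h1))
    unfold allowed at h3
    rw [if_pos (Or.inl ⟨h1, h2⟩)] at h3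
    exact h3
  · intro e h1 h2
    have hB : InB o N R h e.1 := by
      rcases h1 with h4 | h4
      · exact InD_B h4
      · exact InB_of_joins (e := e) (x := tip e) (x' := e.1) (Or.inr ⟨rfl, rfl⟩) h4
    have h3 := H e (mem_edges (InB_big hB))
    unfold allowed at h3
    rw [if_neg (by
      rintro (h5 | h5)
      · exact h2 h5
      · exact h5 h1)] at h3
    exact h3
  · intro e h1 h2 h3 h4
    have h5 := H e (mem_edges (InB_big h1))
    unfold allowed at h5
    rw [if_pos (Or.inr (by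
      rintro (h6 | h6)
      · exact h3 h6
      · exact h4 h6))] at h5
    exact h5

/-- A trap around `v` gives a bottleneck. -/
lemma bottleneck_of_trap {v : Fin d → ℤ} {ω : Edge d → ℝ≥0}
    (H : Trap o r N R h α β (shift v ω)) (hc : Cond d r N R h α β) {j : Fin d} (hj : j ≠ o) :
    Bottleneck r ω v := by
  classical
  refine ⟨mouth o N + v, (bigBox d (N + R + h + 2)).image (· + v), ?_⟩
  intro x hx y hy
  have hy' : ¬ InD o N R h (y - v) := by
    intro h1
    apply hy
    rw [Finset.mem_image]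
    exact ⟨y - v, InB_big (InD_B h1), by simp⟩
  have hx' : ∀ i, -(r : ℤ) ≤ (x - v) i ∧ (x - v) i ≤ r := by
    intro i
    have := hx i
    rw [abs_le] at this
    simpa using this
  have h1 := forced H hc hj hx' hy'
  rw [T_shift, T_shift, T_shift] at h1
  simpa using h1

/-- The edges of the copies of the configuration along a ray. -/
def move (v u : Fin d → ℤ) (L : ℕ) (m : ℕ) (e : Edge d) : Edge d :=
  (e.1 + (v + ((m * L : ℕ) : ℤ) • u), e.2)

lemma move_inj {v u : Fin d → ℤ} (hu : u ≠ 0) (W : ℕ) (m m' : ℕ) (e : Edge d)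
    (he : e ∈ edges d W) (e' : Edge d) (he' : e' ∈ edges d W)
    (hee : move v u (2 * W + 1) m e = move v u (2 * W + 1) m' e') : m = m' ∧ e = e' := by
  obtain ⟨i, hi⟩ := Function.ne_iff.1 hu
  have hb := (mem_bigBox.1 (Finset.mem_product.1 he).1) i
  have hb' := (mem_bigBox.1 (Finset.mem_product.1 he').1) i
  have h1 := congrArg Prod.fst hee
  have h2 := congrArg Prod.snd hee
  simp only [move] at h1 h2
  have h3 := congrFun h1 i
  simp only [Pi.add_apply, Pi.smul_apply, smul_eq_mul] at h3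
  have hui : u i ≠ 0 := hi
  have hmm : m = m' := by
    by_contra hne
    have h4 : ((m : ℤ) - m') * ((2 * W + 1) * u i) = e'.1 i - e.1 i := by
      push_cast at h3
      linarith
    have h5 : |((m : ℤ) - m') * ((2 * W + 1) * u i)| ≤ 2 * W := by
      rw [h4, abs_le]
      constructor <;> linarith [hb.1, hb.2, hb'.1, hb'.2]
    rw [abs_mul, abs_mul] at h5
    have h6 : 1 ≤ |(m : ℤ) - m'| := by
      apply Int.one_le_abs
      intro h7
      apply hne
      omega
    have h7 : 1 ≤ |u i| := Int.one_le_abs hui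
    have h8 : |((2 : ℤ) * W + 1)| = 2 * W + 1 := abs_of_nonneg (by positivity)
    rw [h8] at h5
    have hW : (0 : ℤ) ≤ W := by positivity
    have h9 : (2 * (W : ℤ) + 1) * 1 ≤ (2 * W + 1) * |u i| :=
      mul_le_mul_of_nonneg_left h7 (by linarith)
    have h10 : 1 * ((2 * (W : ℤ) + 1) * |u i|) ≤ |(m : ℤ) - m'| * ((2 * W + 1) * |u i|) :=
      mul_le_mul_of_nonneg_right h6 (by positivity)
    linarith
  refine ⟨hmm, ?_⟩
  subst hmm
  refine Prod.ext ?_ h2
  exact add_right_cancel h1

end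

/-- **Main theorem.** -/
theorem main (hd : 2 ≤ d) (F : Measure ℝ≥0) [IsProbabilityMeasure F] (hF : ∀ c, F {c} ≠ 1)
    (r : ℕ) :
    0 < law d F {ω | Bottleneck r ω 0} ∧
    ∃ c : ℝ, 0 < c ∧ ∀ᵐ ω ∂law d F, ∀ v u : Fin d → ℤ, u ≠ 0 → ∀ᶠ M : ℕ in atTop,
      c * M ≤ {n : ℕ | n < M ∧ Bottleneck r ω (v + (n : ℤ) • u)}.ncard := by
  classical
  obtain ⟨α, β, hαβ, hα, hβ⟩ := exists_levels F hF
  obtain ⟨N, R, h, hc⟩ := exists_cond d r hαβ
  set o : Fin d := ⟨0, by omega⟩ with ho
  have hj : (⟨1, by omega⟩ : Fin d) ≠ o := by simp [ho]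
  set W := N + R + h + 2 with hW
  have hbot : ∀ (v u : Fin d → ℤ) (m : ℕ) (ω : Edge d → ℝ≥0),
      ω ∈ Ev (edges d W) (move v u (2 * W + 1)) (allowed o r N R h α β) m →
      Bottleneck r ω (v + ((m * (2 * W + 1) : ℕ) : ℤ) • u) := by
    intro v u m ω hω
    refine bottleneck_of_trap (o := o) (trap_of_allowed hc.rN fun e he => ?_) hc hj
    exact hω e he
  have hu0 : (Pi.single o 1 : Fin d → ℤ) ≠ 0 := by
    intro h0
    have := congrFun h0 o
    simp at this
  have hP : ∀ e ∈ edges d W, 0 < F (allowed o r N R h α β e) := fun e _ => allowed_pos hα hβ e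
  constructor
  · have h1 := prob_pos (F := F) (K := edges d W) (g := move 0 (Pi.single o 1) (2 * W + 1))
      (t := allowed o r N R h α β) allowed_meas
      (fun m m' e he e' he' hee => move_inj hu0 W m m' e he e' he' hee) hP 0
    refine lt_of_lt_of_le h1 (measure_mono fun ω hω => ?_)
    have := hbot 0 (Pi.single o 1) 0 ω hω
    simpa using this
  · set c₀ := (∏ e ∈ edges d W, F (allowed o r N R h α β e)).toReal with hc₀
    have hc₀pos : 0 < c₀ := by
      apply ENNReal.toReal_pos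
      · exact Finset.prod_ne_zero_iff.2 fun e he => (hP e he).ne'
      · exact ENNReal.prod_ne_top fun e _ => measure_ne_top _ _
    refine ⟨c₀ / 2 / (2 * (2 * W + 1)), by positivity, ?_⟩
    rw [ae_all_iff]
    intro v
    rw [ae_all_iff]
    intro u
    by_cases hu : u = 0
    · exact Eventually.of_forall fun ω h0 => absurd hu h0
    have hden := density (F := F) (K := edges d W) (g := move v u (2 * W + 1))
      (t := allowed o r N R h α β) allowed_meas
      (fun m m' e he e' he' hee => move_inj hu W m m' e he e' he' hee) hP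
    filter_upwards [hden] with ω hω _
    rw [eventually_atTop] at hω ⊢
    obtain ⟨M₀, hM₀⟩ := hω
    refine ⟨(M₀ + 2) * (2 * W + 1), fun M hM => ?_⟩
    set q := M / (2 * W + 1) with hq
    have hq1 : M₀ + 2 ≤ q := (Nat.le_div_iff_mul_le (by omega)).2 hM
    have h1 := hM₀ q (by omega)
    have h2 : (((Finset.range q).filter fun m =>
        ω ∈ Ev (edges d W) (move v u (2 * W + 1)) (allowed o r N R h α β) m).card) ≤
        {n : ℕ | n < M ∧ Bottleneck r ω (v + (n : ℤ) • u)}.ncard := by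
      rw [← Set.ncard_coe_finset]
      refine Set.ncard_le_ncard_of_injOn (fun m => m * (2 * W + 1)) ?_ ?_
        ((Set.finite_lt_nat M).subset fun n hn => hn.1)
      · intro m hm
        rw [Finset.mem_coe, Finset.mem_filter, Finset.mem_range] at hm
        refine ⟨?_, hbot v u m ω hm.2⟩
        calc m * (2 * W + 1) < q * (2 * W + 1) := Nat.mul_lt_mul_of_pos_right hm.1 (by omega)
          _ ≤ M := Nat.div_mul_le_self M (2 * W + 1)
      · intro m _ m' _ hmm
        exact Nat.eq_of_mul_eq_mul_right (by omega : 0 < 2 * W + 1) hmm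
    have h3 : (M : ℝ) ≤ 2 * (2 * W + 1) * q := by
      have h4 : M < (q + 1) * (2 * W + 1) := by
        have := Nat.lt_div_mul_add (a := M) (b := 2 * W + 1) (by omega)
        rw [← hq] at this
        linarith [this]
      have h5 : (q + 1) * (2 * W + 1) ≤ 2 * (2 * W + 1) * q := by nlinarith
      exact_mod_cast (h4.le.trans h5)
    calc c₀ / 2 / (2 * (2 * W + 1)) * M ≤ c₀ / 2 / (2 * (2 * W + 1)) * (2 * (2 * W + 1) * q) := by
          gcongr
      _ = c₀ / 2 * q := by field_simp
      _ ≤ _ := h1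
      _ ≤ _ := by exact_mod_cast h2

end Pool.Agent.Y400.BN
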